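import Pool.Agent.H.MP_6bfe6b_gt.Defs

open CategoryTheory Function Set TopologicalSpace Pool.Agent.H.MP_6bfe6b_gt

namespace Pool.Agent.H.MP_92e33a_gt

universe u

/-- A closed subset as a compactum. -/
def sub (X : CompHaus.{u}) (Z : Closeds X) : CompHaus.{u} :=
  haveI : CompactSpace Z := isCompact_iff_compactSpace.1 Z.isClosed.isCompact
  CompHaus.of Z

/-- The inclusion of a closed subset. -/
def incl (X : CompHaus.{u}) (Z : Closeds X) : sub X Z ⟶ X :=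
  ConcreteCategory.ofHom (C := CompHaus.{u}) ⟨Subtype.val, continuous_subtype_val⟩

/-- `F Z` as a subset of `F X`. -/
def img (F : CompHaus.{u} ⥤ CompHaus.{u}) (X : CompHaus.{u}) (Z : Closeds X) : Set (F.obj X) :=
  range (F.map (incl X Z))

/-- The weight: least cardinality of a base. -/
noncomputable def weight (X : Type u) [TopologicalSpace X] : Cardinal.{u} :=
  sInf {c | ∃ B : Set (Set X), IsTopologicalBasis B ∧ Cardinal.mk B = c}

/-- Normal functors in the sense of Shchepin. -/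
structure Normal (F : CompHaus.{u} ⥤ CompHaus.{u}) : Prop where
  mec : Mec F
  inter : ∀ (X : CompHaus.{u}) (S : Set (Closeds X)), img F X (sInf S) = ⋂ Z ∈ S, img F X Z
  empty : ∀ X : CompHaus.{u}, IsEmpty X → IsEmpty (F.obj X)
  point : ∀ X : CompHaus.{u}, Nonempty (Unique X) → Nonempty (Unique (F.obj X))
  weight_eq : ∀ X : CompHaus.{u}, Infinite X → weight (F.obj X) = weight X
  preim : ∀ (X Y : CompHaus.{u}) (f : X ⟶ Y) (Z : Closeds Y),
    F.map f ⁻¹' img F Y Z = img F X (Z.preimage (ConcreteCategory.hom f).continuous)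
  preim_sq : PreservesPreimages F

/-- Skeletal maps. -/
def SkeletalMap {X Y : CompHaus.{u}} (f : X ⟶ Y) : Prop :=
  ∀ A : Set Y, IsNowhereDense A → IsNowhereDense (f ⁻¹' A)

/-- Skeletal functors. -/
def SkeletalFunctor (F : CompHaus.{u} ⥤ CompHaus.{u}) : Prop :=
  ∀ ⦃X Y : CompHaus.{u}⦄ (f : X ⟶ Y), IsOpenMap f → Surjective f → SkeletalMap (F.map f)

/-- Open functors. -/
def OpenFunctor (F : CompHaus.{u} ⥤ CompHaus.{u}) : Prop :=
  ∀ ⦃X Y : CompHaus.{u}⦄ (f : X ⟶ Y), IsOpenMap f → Surjective f → IsOpenMap (F.map f)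

/-- Finitary functors. -/
def Finitary (F : CompHaus.{u} ⥤ CompHaus.{u}) : Prop :=
  ∀ X : CompHaus.{u}, Finite X → Finite (F.obj X)

/-- The degree of `F` is at most `n`. -/
def DegreeLE (F : CompHaus.{u} ⥤ CompHaus.{u}) (n : ℕ) : Prop :=
  ∀ (X : CompHaus.{u}) (a : F.obj X),
    ∃ ξ : CompHaus.of (ULift.{u} (Fin n)) ⟶ X, a ∈ range (F.map ξ)

/-- Skeletal squares. -/
def SkeletalSquare {X' Y' X Y : CompHaus.{u}} (f' : X' ⟶ Y') (f : X ⟶ Y) (pX : X' ⟶ X)
    (pY : Y' ⟶ Y) : Prop :=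
  pX ≫ f = f' ≫ pY ∧ ∀ (x : X), ∀ U ∈ nhds x, ∃ V : Set Y, IsOpen V ∧ V.Nonempty ∧
    V ⊆ f '' U ∧ pY ⁻¹' V ⊆ f' '' (pX ⁻¹' U)

end Pool.Agent.H.MP_92e33a_gt
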