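import Pool.Agent.H.MP_6bfe6b_gt.C
import Pool.Agent.H.MP_92e33a_gt.Defs

open Function Set TopologicalSpace

namespace Pool.Agent.H.MP_92e33a_gt

universe u

abbrev G (X : Type u) : Type u := X × X × Bool

section basic

variable {X Y Z : Type u} [TopologicalSpace X] [TopologicalSpace Y] [TopologicalSpace Z]

def Rel {X : Type u} (g h : G X) : Prop :=
  g.1 = h.1 ∧ g.2.1 = h.2.1 ∧ (g.2.2 = h.2.2 ∨ g.1 = g.2.1)

def st (X : Type u) : Setoid (G X) where
  r := Rel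
  iseqv :=
    { refl := fun _ => ⟨rfl, rfl, Or.inl rfl⟩
      symm := fun h => ⟨h.1.symm, h.2.1.symm, h.2.2.elim (fun e => Or.inl e.symm) fun e =>
        Or.inr (h.1.symm.trans (e.trans h.2.1))⟩
      trans := by
        rintro g h k ⟨e1, e2, e3⟩ ⟨e4, e5, e6⟩
        refine ⟨e1.trans e4, e2.trans e5, ?_⟩
        rcases e3 with e3 | e3
        · rcases e6 with e6 | e6
          · exact Or.inl (e3.trans e6)
          · exact Or.inr (e1.trans (e6.trans e2.symm))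
        · exact Or.inr e3 }

abbrev FX (X : Type u) : Type u := Quotient (st X)

def Gm (f : C(X, Y)) : C(G X, G Y) := ⟨fun g => (f g.1, f g.2.1, g.2.2), by fun_prop⟩

lemma Rel.map (f : C(X, Y)) {g h : G X} (e : Rel g h) : Rel (Gm f g) (Gm f h) :=
  ⟨congrArg f e.1, congrArg f e.2.1, e.2.2.imp id (congrArg f)⟩

def Fm (f : C(X, Y)) : C(FX X, FX Y) :=
  ⟨Quotient.map' (s₁ := st X) (s₂ := st Y) (Gm f) fun _ _ e => Rel.map f e,
    Continuous.quotient_map' (s := st X) (t := st Y) (Gm f).continuous _⟩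

def mk {X : Type u} (g : G X) : FX X := Quotient.mk (st X) g

lemma Fm_mk (f : C(X, Y)) (g : G X) : Fm f (mk g) = mk (Gm f g) := rfl

lemma mk_eq {X : Type u} {g h : G X} : mk g = mk h ↔ Rel g h := Quotient.eq (r := st X)

lemma mk_surj {X : Type u} (a : FX X) : ∃ g, mk g = a := Quotient.exists_rep a

lemma mk_cont : Continuous (mk : G X → FX X) := continuous_quot_mk

lemma isOpen_iff {S : Set (FX X)} : IsOpen S ↔ IsOpen (mk ⁻¹' S) := isOpen_coinduced

lemma isOpen_img {O : Set (G X)} (hO : IsOpen O) (hs : ∀ g ∈ O, ∀ h, Rel g h → h ∈ O) :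
    IsOpen (mk '' O) := by
  rw [isOpen_iff]
  convert hO using 1
  ext h
  exact ⟨fun ⟨g, hg, e⟩ => hs g hg h (mk_eq.1 e), fun hh => ⟨h, hh, rfl⟩⟩

lemma Fm_inj {f : C(X, Y)} (hf : Injective f) : Injective (Fm f) := by
  intro a b e
  obtain ⟨g, rfl⟩ := mk_surj a
  obtain ⟨h, rfl⟩ := mk_surj b
  rw [Fm_mk, Fm_mk, mk_eq] at e
  exact mk_eq.2 ⟨hf e.1, hf e.2.1, e.2.2.imp id fun k => hf k⟩

lemma mem_range_Fm (f : C(X, Y)) (g : G Y) :
    mk g ∈ range (Fm f) ↔ g.1 ∈ range f ∧ g.2.1 ∈ range f := by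
  constructor
  · rintro ⟨a, e⟩
    obtain ⟨k, rfl⟩ := mk_surj a
    rw [Fm_mk, mk_eq] at e
    exact ⟨⟨_, e.1⟩, _, e.2.1⟩
  · rintro ⟨⟨x, hx⟩, y, hy⟩
    exact ⟨mk (x, y, g.2.2), mk_eq.2 ⟨hx, hy, Or.inl rfl⟩⟩

lemma Fm_surj {f : C(X, Y)} (hf : Surjective f) : Surjective (Fm f) := by
  intro b
  obtain ⟨g, rfl⟩ := mk_surj b
  exact (mem_range_Fm f g).2 ⟨hf _, hf _⟩

instance t2_FX [CompactSpace X] [T2Space X] : T2Space (FX X) := by
  obtain ⟨Φ, q, h0, h1⟩ := MP_6bfe6b_gt.exists_collapse2 (G X) {g | g.1 = g.2.1}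
    (isClosed_eq (by fun_prop) (by fun_prop))
  have hw : ∀ g h : G X, Rel g h → (g.1, g.2.1, q g) = (h.1, h.2.1, q h) := by
    rintro g h ⟨e1, e2, e3 | e3⟩
    · rw [show g = h from Prod.ext e1 (Prod.ext e2 e3)]
    · rw [h0 g e3, h0 h (e1.symm.trans (e3.trans e2)), e1, e2]
  refine T2Space.of_injective_continuous
    (f := Quotient.lift (s := st X) (fun g => (g.1, g.2.1, q g)) hw) ?_
    (Continuous.quotient_lift (s := st X) (by fun_prop) hw)
  intro a b e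
  obtain ⟨g, rfl⟩ := mk_surj a
  obtain ⟨h, rfl⟩ := mk_surj b
  have e' : (g.1, g.2.1, q g) = (h.1, h.2.1, q h) := e
  simp only [Prod.mk.injEq] at e'
  by_cases hg : g.1 = g.2.1
  · exact mk_eq.2 ⟨e'.1, e'.2.1, Or.inr hg⟩
  · rw [h1 g h hg e'.2.2]

lemma skel [T2Space Y] {f : C(X, Y)} (hf : IsOpenMap f) (A : Set (FX Y))
    (hA : IsNowhereDense A) : IsNowhereDense (Fm f ⁻¹' A) := by
  by_contra hne
  obtain ⟨a, ha⟩ := nonempty_iff_ne_empty.2 hne
  obtain ⟨g, rfl⟩ := mk_surj a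
  have hsub : interior (closure (Fm f ⁻¹' A)) ⊆ Fm f ⁻¹' closure A :=
    interior_subset.trans ((Fm f).continuous.closure_preimage_subset A)
  have ho : IsOpen (mk ⁻¹' interior (closure (Fm f ⁻¹' A))) := isOpen_interior.preimage mk_cont
  obtain ⟨U1, W, hU1, hW, h1, h2, h3⟩ := isOpen_prod_iff.1 ho g.1 g.2 ha
  obtain ⟨U2, W', hU2, -, h4, h5, h6⟩ := isOpen_prod_iff.1 hW g.2.1 g.2.2 h2
  have key : ∀ v1 ∈ f '' U1, ∀ v2 ∈ f '' U2, mk (v1, v2, g.2.2) ∈ closure A := by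
    rintro _ ⟨x, hx, rfl⟩ _ ⟨y, hy, rfl⟩
    exact hsub (h3 (mk_mem_prod hx (h6 (mk_mem_prod hy h5))))
  have fin : ∀ O : Set (G Y), IsOpen O → (∀ g ∈ O, ∀ h, Rel g h → h ∈ O) → O.Nonempty →
      (∀ k ∈ O, mk k ∈ closure A) → False := fun O hO hs ⟨k, hk⟩ hc => by
    have : mk '' O ⊆ interior (closure A) :=
      interior_maximal (by rintro _ ⟨k, hk, rfl⟩; exact hc k hk) (isOpen_img hO hs)
    have := this ⟨k, hk, rfl⟩
    rw [hA] at this
    exact this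
  have o1 : IsOpen {k : G Y | k.1 ∈ f '' U1} := (hf _ hU1).preimage (by fun_prop)
  have o2 : IsOpen {k : G Y | k.2.1 ∈ f '' U2} := (hf _ hU2).preimage (by fun_prop)
  by_cases hc : ∃ v1 ∈ f '' U1, ∃ v2 ∈ f '' U2, v1 ≠ v2
  · obtain ⟨v1, hv1, v2, hv2, hv⟩ := hc
    refine fin ({k | k.1 ∈ f '' U1} ∩ {k | k.2.1 ∈ f '' U2} ∩ {k | k.2.2 = g.2.2} ∩
      {k | k.1 ≠ k.2.1}) (((o1.inter o2).inter ?_).inter ?_) ?_ ⟨(v1, v2, g.2.2), ⟨⟨hv1, hv2⟩, rfl⟩, hv⟩ ?_
    · exact (isOpen_discrete {g.2.2}).preimage (f := fun k : G Y => k.2.2) (by fun_prop)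
    · exact isOpen_ne_fun (by fun_prop) (by fun_prop)
    · intro k hk h e
      rwa [← show k = h from Prod.ext e.1 (Prod.ext e.2.1 (e.2.2.resolve_right hk.2))]
    · rintro ⟨k1, k2, k3⟩ ⟨⟨⟨a1, a2⟩, a3⟩, -⟩
      have : k3 = g.2.2 := a3
      subst this
      exact key _ a1 _ a2
  · push Not at hc
    refine fin ({k | k.1 ∈ f '' U1} ∩ {k | k.2.1 ∈ f '' U2}) (o1.inter o2) ?_
      ⟨(f g.1, f g.2.1, true), ⟨_, h1, rfl⟩, _, h4, rfl⟩ ?_
    · intro k hk h e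
      have a1 : k.1 ∈ f '' U1 := hk.1
      have a2 : k.2.1 ∈ f '' U2 := hk.2
      rw [e.1] at a1
      rw [e.2.1] at a2
      exact ⟨a1, a2⟩
    · intro k hk
      have : mk k = mk (k.1, k.2.1, g.2.2) := mk_eq.2 ⟨rfl, rfl, Or.inr (hc _ hk.1 _ hk.2)⟩
      rw [this]
      exact key _ hk.1 _ hk.2

lemma weight_le {B : Set (Set X)} (hB : IsTopologicalBasis B) : weight X ≤ Cardinal.mk B :=
  csInf_le' ⟨B, hB, rfl⟩

lemma exists_basis (X : Type u) [TopologicalSpace X] :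
    ∃ B : Set (Set X), IsTopologicalBasis B ∧ Cardinal.mk B = weight X :=
  csInf_mem (s := {c | ∃ B : Set (Set X), IsTopologicalBasis B ∧ Cardinal.mk B = c})
    ⟨_, _, isTopologicalBasis_opens, rfl⟩

lemma weight_mono {e : X → Y} (he : Topology.IsInducing e) : weight X ≤ weight Y := by
  obtain ⟨B, hB, h⟩ := exists_basis Y
  exact (weight_le (hB.isInducing he)).trans (h ▸ Cardinal.mk_image_le)

lemma weight_le_of_surj [CompactSpace X] [T2Space Y] {π : X → Y} (hπ : Continuous π)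
    (hs : Surjective π) {ι : Type u} [Infinite ι] (u : ι → Set X) (ho : ∀ i, IsOpen (u i))
    (hb : ∀ x U, x ∈ U → IsOpen U → ∃ i, x ∈ u i ∧ u i ⊆ U) : weight Y ≤ Cardinal.mk ι := by
  classical
  let v : Finset ι → Set Y := fun s => (π '' (⋃ i ∈ s, u i)ᶜ)ᶜ
  have hv : IsTopologicalBasis (range v) := by
    refine isTopologicalBasis_of_isOpen_of_nhds ?_ ?_
    · rintro _ ⟨s, rfl⟩
      exact (hπ.isClosedMap _ (isOpen_biUnion fun i _ => ho i).isClosed_compl).isOpen_compl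
    · intro a W ha hW
      have hK : IsCompact (π ⁻¹' {a}) := by
        have : T1Space Y := inferInstance
        exact (isClosed_singleton.preimage hπ).isCompact
      obtain ⟨t, ht⟩ := hK.elim_finite_subcover (fun i : {i // u i ⊆ π ⁻¹' W} => u i.1)
        (fun i => ho i.1) fun x hx => by
          have hx' : π x = a := hx
          obtain ⟨i, h1, h2⟩ := hb x (π ⁻¹' W) (show π x ∈ W from hx' ▸ ha) (hW.preimage hπ)
          exact mem_iUnion.2 ⟨⟨i, h2⟩, h1⟩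
      refine ⟨_, ⟨t.image Subtype.val, rfl⟩, ?_, ?_⟩
      · rintro ⟨x, hx, e⟩
        apply hx
        obtain ⟨i, hi, hxi⟩ := mem_iUnion₂.1 (ht e)
        exact mem_iUnion₂.2 ⟨i.1, Finset.mem_image_of_mem _ hi, hxi⟩
      · intro y hy
        obtain ⟨x, rfl⟩ := hs y
        have : x ∈ ⋃ i ∈ t.image Subtype.val, u i := by
          by_contra hx
          exact hy ⟨x, hx, rfl⟩
        obtain ⟨i, hi, hxi⟩ := mem_iUnion₂.1 this
        obtain ⟨j, -, rfl⟩ := Finset.mem_image.1 hi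
        exact j.2 hxi
  exact (weight_le hv).trans (Cardinal.mk_range_le.trans (Cardinal.mk_finset_of_infinite ι).le)

lemma basis_infinite [T0Space X] [Infinite X] {B : Set (Set X)} (hB : IsTopologicalBasis B) :
    Infinite B := by
  by_contra h
  rw [not_infinite_iff_finite] at h
  have : Injective fun x : X => {U : B | x ∈ U.1} := fun x y e =>
    (hB.eq_iff).2 fun s hs => Set.ext_iff.1 e ⟨s, hs⟩
  exact not_finite_iff_infinite.2 ‹Infinite X› (Finite.of_injective _ this)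

lemma weight_FX [CompactSpace X] [T2Space X] [Infinite X] : weight (FX X) = weight X := by
  apply le_antisymm
  · obtain ⟨B, hB, h⟩ := exists_basis X
    have := basis_infinite hB
    refine (weight_le_of_surj mk_cont mk_surj (ι := B × B × Bool)
      (fun i => i.1.1 ×ˢ i.2.1.1 ×ˢ {i.2.2})
      (fun i => (hB.isOpen i.1.2).prod ((hB.isOpen i.2.1.2).prod (isOpen_discrete _))) ?_).trans ?_
    · intro g U hg hU
      obtain ⟨U1, W, hU1, hW, h1, h2, h3⟩ := isOpen_prod_iff.1 hU g.1 g.2 hg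
      obtain ⟨U2, W', hU2, -, h4, h5, h6⟩ := isOpen_prod_iff.1 hW g.2.1 g.2.2 h2
      obtain ⟨V1, b1, c1, d1⟩ := hB.exists_subset_of_mem_open h1 hU1
      obtain ⟨V2, b2, c2, d2⟩ := hB.exists_subset_of_mem_open h4 hU2
      refine ⟨(⟨V1, b1⟩, ⟨V2, b2⟩, g.2.2), ⟨c1, c2, rfl⟩, ?_⟩
      rintro ⟨x, y, b⟩ ⟨a1, a2, a3⟩
      have : b = g.2.2 := a3
      subst this
      exact h3 (mk_mem_prod (d1 a1) (h6 (mk_mem_prod (d2 a2) h5)))
    · rw [← h]
      have hi : Cardinal.aleph0 ≤ Cardinal.mk B := Cardinal.aleph0_le_mk B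
      simp only [Cardinal.mk_prod, Cardinal.lift_id', Cardinal.lift_id, Cardinal.mk_bool,
        Cardinal.lift_ofNat]
      have h2 : (2 : Cardinal.{u}) ≤ Cardinal.mk B :=
        (Cardinal.natCast_lt_aleph0 (n := 2)).le.trans hi
      rw [Cardinal.mul_eq_left hi h2 two_ne_zero, Cardinal.mul_eq_self hi]
  · have hc : Continuous fun x : X => mk (x, x, true) := mk_cont.comp (by fun_prop)
    exact weight_mono (hc.isClosedEmbedding fun x y e => (mk_eq.1 e).1).isInducing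

end basic

section spec

variable {J : Type u} [Preorder J] [IsDirectedOrder J] [Nonempty J]
  {Xs : J → Type u} [∀ j, TopologicalSpace (Xs j)] [∀ j, CompactSpace (Xs j)]
  [∀ j, T2Space (Xs j)] {b : ∀ i j, i ≤ j → C(Xs j, Xs i)}
  {L : Type u} [TopologicalSpace L] {p : ∀ j, C(L, Xs j)}

lemma lim_inj {J : Type u} {Xs : J → Type u} [∀ j, TopologicalSpace (Xs j)] {p : ∀ j, C(L, Xs j)}
    (hs : ∀ x y, (∀ j, p j x = p j y) → x = y) (a a' : FX L)
    (h : ∀ j, Fm (p j) a = Fm (p j) a') : a = a' := by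
  obtain ⟨g, rfl⟩ := mk_surj a
  obtain ⟨g', rfl⟩ := mk_surj a'
  have h' : ∀ j, Rel (Gm (p j) g) (Gm (p j) g') := fun j => mk_eq.1 (h j)
  refine mk_eq.2 ⟨hs _ _ fun j => (h' j).1, hs _ _ fun j => (h' j).2.1, ?_⟩
  by_cases e : g.2.2 = g'.2.2
  · exact Or.inl e
  · exact Or.inr (hs _ _ fun j => (h' j).2.2.resolve_left e)

lemma lim_surj
    (hb : ∀ i j k (hij : i ≤ j) (hjk : j ≤ k) z, b i j hij (b j k hjk z) = b i k (hij.trans hjk) z)
    (ht : ∀ t : ∀ j, Xs j, (∀ i j h, b i j h (t j) = t i) → ∃ x, ∀ j, p j x = t j)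
    (a : ∀ j, FX (Xs j)) (ha : ∀ i j h, Fm (b i j h) (a j) = a i) :
    ∃ x : FX L, ∀ j, Fm (p j) x = a j := by
  obtain ⟨g, hg, hgb⟩ := MP_6bfe6b_gt.threads (Xs := fun j => G (Xs j)) (fun i j h => Gm (b i j h))
    (fun i j k hij hjk z => Prod.ext (hb i j k hij hjk _) (Prod.ext (hb i j k hij hjk _) rfl))
    (fun j => mk ⁻¹' {a j})
    (fun j => isClosed_singleton.preimage mk_cont) (fun j => mk_surj (a j))
    (fun i j h g hg => by
      have : mk g = a j := hg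
      show mk (Gm (b i j h) g) = a i
      rw [← Fm_mk, this, ha])
  obtain ⟨w1, hw1⟩ := ht (fun j => (g j).1) fun i j h => congrArg (fun z => z.1) (hgb i j h)
  obtain ⟨w2, hw2⟩ := ht (fun j => (g j).2.1) fun i j h => congrArg (fun z => z.2.1) (hgb i j h)
  have hB : ∀ i j, i ≤ j → (g j).2.2 = (g i).2.2 := fun i j h =>
    congrArg (fun z : G (Xs i) => z.2.2) (hgb i j h)
  refine ⟨mk (w1, w2, (g (Classical.arbitrary J)).2.2), fun j => ?_⟩
  rw [Fm_mk, ← show mk (g j) = a j from hg j]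
  obtain ⟨k, h1, h2⟩ := exists_ge_ge j (Classical.arbitrary J)
  exact mk_eq.2 ⟨hw1 j, hw2 j, Or.inl ((hB _ _ h2).symm.trans (hB _ _ h1))⟩

end spec

end Pool.Agent.H.MP_92e33a_gt
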