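import Pool.Agent.H.MP_92e33a_gt.A

open CategoryTheory CategoryTheory.Limits Function Set TopologicalSpace Opposite
open Pool.Agent.H.MP_6bfe6b_gt (Mec ContinuousFunctor PreservesPreimages isLimit_of of_isLimit
  bicomm_of CI)

namespace Pool.Agent.H.MP_92e33a_gt

universe u

/-- two copies of the square glued along the diagonal. -/
def FF : CompHaus.{u} ⥤ CompHaus.{u} where
  obj X := CompHaus.of (FX X)
  map f := ConcreteCategory.ofHom (C := CompHaus.{u}) (Fm (ConcreteCategory.hom f))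
  map_id X := by
    ext a
    obtain ⟨g, rfl⟩ := mk_surj a
    rfl
  map_comp f f' := by
    ext a
    obtain ⟨g, rfl⟩ := mk_surj a
    rfl

lemma FF_cont : ContinuousFunctor FF.{u} := by
  intro J _ _ _
  refine ⟨fun {S} => ⟨fun {c} hc => ?_⟩⟩
  obtain ⟨hs, ht⟩ := of_isLimit hc
  let b : ∀ i j : J, i ≤ j → C(S.obj (op j), S.obj (op i)) := fun i j h =>
    ConcreteCategory.hom (S.map (homOfLE h).op)
  let p : ∀ j : J, C(c.pt, S.obj (op j)) := fun j => ConcreteCategory.hom (c.π.app (op j))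
  have hb : ∀ i j k (hij : i ≤ j) (hjk : j ≤ k) z,
      b i j hij (b j k hjk z) = b i k (hij.trans hjk) z := fun i j k hij hjk z =>
    (congrArg (fun g : S.obj (op k) ⟶ S.obj (op i) => g z)
      (S.map_comp (homOfLE hjk).op (homOfLE hij).op)).symm
  apply isLimit_of
  · intro x y h
    exact lim_inj (Xs := fun j => S.obj (op j)) (p := p) (fun x y h => hs x y fun j => h j.unop)
      x y fun j => h (op j)
  · intro t h
    obtain ⟨x, hx⟩ := lim_surj (Xs := fun j => S.obj (op j)) (p := p) hb (fun t h => by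
        obtain ⟨x, hx⟩ := ht (fun j => t j.unop) fun i j e => h j.unop i.unop e.unop.le
        exact ⟨x, fun j => hx (op j)⟩)
      (fun j => t (op j)) fun i j e => h (op j) (op i) (homOfLE e).op
    exact ⟨x, fun j => hx j.unop⟩

lemma FF_mec : Mec FF.{u} :=
  ⟨fun _ _ _ hf => Fm_inj hf, fun _ _ _ hf => Fm_surj hf, FF_cont⟩

/-- the underlying continuous map. -/
def cm {X Y : CompHaus.{u}} (f : X ⟶ Y) : C(X, Y) := ConcreteCategory.hom f

lemma mem_img (X : CompHaus.{u}) (Z : Closeds X) (g : G X) :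
    (mk g : FF.obj X) ∈ img FF X Z ↔ g.1 ∈ Z ∧ g.2.1 ∈ Z := by
  refine (mem_range_Fm (cm (incl X Z)) g).trans ?_
  have : range (cm (incl X Z)) = Z := Subtype.range_coe
  rw [this]
  rfl

lemma FF_normal : Normal FF.{u} where
  mec := FF_mec
  inter X S := by
    ext a
    obtain ⟨g, rfl⟩ := mk_surj a
    refine (mem_img X _ g).trans (Iff.trans ?_ mem_iInter₂.symm)
    simp only [Closeds.mem_sInf]
    exact ⟨fun h Z hZ => (mem_img X Z g).2 ⟨h.1 Z hZ, h.2 Z hZ⟩,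
      fun h => ⟨fun Z hZ => ((mem_img X Z g).1 (h Z hZ)).1,
        fun Z hZ => ((mem_img X Z g).1 (h Z hZ)).2⟩⟩
  empty X h := ⟨fun a => by
    obtain ⟨g, -⟩ := mk_surj a
    exact h.false g.1⟩
  point X := fun ⟨h⟩ => ⟨⟨⟨mk (default, default, true)⟩, fun a => by
    obtain ⟨g, rfl⟩ := mk_surj a
    exact mk_eq.2 ⟨Subsingleton.elim _ _, Subsingleton.elim _ _, Or.inr (Subsingleton.elim _ _)⟩⟩⟩
  weight_eq X _ := weight_FX
  preim X Y f Z := by
    ext a
    obtain ⟨g, rfl⟩ := mk_surj a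
    exact (mem_img Y Z (Gm (cm f) g)).trans (mem_img X (Z.preimage (cm f).continuous) g).symm
  preim_sq := by
    intro X' Y' X Y f' f pX pY hf _ hb
    refine bicomm_of FF FF_mec.1 hf hb.1 fun a b e => ?_
    obtain ⟨g, rfl⟩ := mk_surj a
    obtain ⟨h, rfl⟩ := mk_surj b
    have e' : Rel (Gm (cm pY) h) (Gm (cm f) g) := mk_eq.1 e
    have hr : ∀ y x, pY y = f x → y ∈ range f' := fun y x hy => by
      have : y ∈ pY ⁻¹' {f x} := hy
      rw [← hb.2] at this
      exact image_subset_range _ _ this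
    exact (mem_range_Fm (cm f') h).2 ⟨hr _ _ e'.1, hr _ _ e'.2.1⟩

lemma FF_finitary : Finitary FF.{u} := fun X _ => Finite.of_surjective (mk : G X → FX X) mk_surj

lemma FF_degree : DegreeLE FF.{u} 2 := by
  intro X a
  obtain ⟨g, rfl⟩ := mk_surj a
  let ξ : C(ULift.{u} (Fin 2), X) := ⟨fun i => ![g.1, g.2.1] i.down, continuous_of_discreteTopology⟩
  exact ⟨ConcreteCategory.ofHom (C := CompHaus.{u}) ξ,
    (mem_range_Fm ξ g).2 ⟨⟨⟨0⟩, rfl⟩, ⟨1⟩, rfl⟩⟩

lemma FF_skel : SkeletalFunctor FF.{u} := fun _ _ _ hf _ A hA => skel hf A hA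

lemma not_open_aux : ¬ IsOpenMap (Fm (ContinuousMap.fst : C(CI.{u} × ULift.{u} Bool, CI.{u}))) := by
  intro h
  let O : Set (G (CI.{u} × ULift.{u} Bool)) := {k | k.1.2 ≠ k.2.1.2} ∩ {k | k.2.2 = false}
  have hO : IsOpen O := (isOpen_ne_fun (by fun_prop) (by fun_prop)).inter
    ((isOpen_discrete {false}).preimage
      (f := fun k : G (CI.{u} × ULift.{u} Bool) => k.2.2) (by fun_prop))
  have h1 := h _ (isOpen_img hO fun k hk l e => by
    rwa [← show k = l from Prod.ext e.1 (Prod.ext e.2.1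
      (e.2.2.resolve_right fun e' => hk.1 (congrArg Prod.snd e')))])
  have hc : Continuous fun t : unitInterval => mk ((⟨0⟩, ⟨t⟩, true) : G CI.{u}) :=
    mk_cont.comp (by fun_prop)
  have h2 := h1.preimage hc
  have h3 : (fun t : unitInterval => mk ((⟨0⟩, ⟨t⟩, true) : G CI.{u})) ⁻¹'
      (Fm (ContinuousMap.fst : C(CI.{u} × ULift.{u} Bool, CI.{u})) '' (mk '' O)) = {0} := by
    ext t
    constructor
    · rintro ⟨_, ⟨k, hk, rfl⟩, e⟩
      rw [Fm_mk, mk_eq] at e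
      rcases e.2.2 with e' | e'
      · exact (Bool.false_ne_true (hk.2.symm.trans e')).elim
      · exact congrArg ULift.down (e.2.1.symm.trans (e'.symm.trans e.1))
    · rintro rfl
      exact ⟨_, ⟨((⟨0⟩, ⟨true⟩), (⟨0⟩, ⟨false⟩), false), ⟨by decide, rfl⟩, rfl⟩,
        mk_eq.2 ⟨rfl, rfl, Or.inr rfl⟩⟩
  rw [h3] at h2
  have h4 := isClopen_iff.1 ⟨isClosed_singleton, h2⟩
  rcases h4 with h4 | h4
  · exact (singleton_ne_empty _) h4
  · have : (1 : unitInterval) ∈ ({0} : Set unitInterval) := h4 ▸ mem_univ _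
    exact one_ne_zero this

lemma FF_not_open : ¬ OpenFunctor FF.{u} := fun h =>
  not_open_aux (h (X := CompHaus.of (CI.{u} × ULift.{u} Bool)) (Y := CompHaus.of CI.{u})
    (ConcreteCategory.ofHom (C := CompHaus.{u}) ContinuousMap.fst) isOpenMap_fst
    Prod.fst_surjective)

abbrev BB : Type u := ULift.{u} Bool

lemma FF_square : ∃ (X' Y' X Y : CompHaus.{u}) (f' : X' ⟶ Y') (f : X ⟶ Y) (pX : X' ⟶ X)
    (pY : Y' ⟶ Y), Finite X' ∧ Finite Y' ∧ Finite X ∧ Finite Y ∧ Surjective f' ∧ Surjective f ∧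
    Surjective pX ∧ Surjective pY ∧ SkeletalSquare f' f pX pY ∧
    ¬ SkeletalSquare (FF.map f') (FF.map f) (FF.map pX) (FF.map pY) := by
  let c : C(BB.{u}, PUnit.{u+1}) := ContinuousMap.const _ PUnit.unit
  have hc : Surjective c := fun _ => ⟨⟨true⟩, rfl⟩
  refine ⟨CompHaus.of (BB.{u} × BB.{u}), CompHaus.of BB.{u}, CompHaus.of BB.{u},
    CompHaus.of PUnit.{u+1}, ConcreteCategory.ofHom (C := CompHaus.{u}) ContinuousMap.snd,
    ConcreteCategory.ofHom (C := CompHaus.{u}) c,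
    ConcreteCategory.ofHom (C := CompHaus.{u}) ContinuousMap.fst,
    ConcreteCategory.ofHom (C := CompHaus.{u}) c, inferInstanceAs (Finite (BB.{u} × BB.{u})),
    inferInstanceAs (Finite BB.{u}), inferInstanceAs (Finite BB.{u}),
    inferInstanceAs (Finite PUnit.{u+1}), Prod.snd_surjective, hc, Prod.fst_surjective, hc,
    ⟨rfl, fun x U hU => ⟨univ, isOpen_univ, ⟨PUnit.unit, trivial⟩, fun _ _ =>
      ⟨x, mem_of_mem_nhds hU, rfl⟩, fun y _ => ⟨(x, y), (mem_of_mem_nhds hU : x ∈ U), rfl⟩⟩⟩, fun h => ?_⟩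
  have hfin : Finite (FX BB.{u}) := Finite.of_surjective (mk : G BB.{u} → FX BB.{u}) mk_surj
  let a : FX BB.{u} := mk (⟨true⟩, ⟨false⟩, false)
  obtain ⟨V, -, ⟨v, hv⟩, -, hV⟩ := h.2 a {a} ((isOpen_discrete ({a} : Set (FX BB.{u}))).mem_nhds rfl)
  obtain ⟨g, rfl⟩ := mk_surj v
  have hm : Fm c (mk (⟨true⟩, ⟨false⟩, true)) ∈ V := by
    have : Fm c (mk (⟨true⟩, ⟨false⟩, true)) = mk g := mk_eq.2 ⟨rfl, rfl, Or.inr rfl⟩
    rw [this]
    exact hv
  obtain ⟨t, ht, e⟩ := hV hm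
  obtain ⟨k, rfl⟩ := mk_surj t
  have e1 : Rel (Gm ContinuousMap.fst k) (⟨true⟩, ⟨false⟩, false) := mk_eq.1 ht
  have e2 : Rel (Gm ContinuousMap.snd k) (⟨true⟩, ⟨false⟩, true) := mk_eq.1 e
  have a1 := e1.2.2.resolve_right fun e' =>
    absurd (e1.1.symm.trans (e'.trans e1.2.1)) (by decide)
  have a2 := e2.2.2.resolve_right fun e' =>
    absurd (e2.1.symm.trans (e'.trans e2.2.1)) (by decide)
  exact absurd (a1.symm.trans a2) (by decide)

end Pool.Agent.H.MP_92e33a_gt
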